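import Pool.Agent.Helper21.UV3.Model

/-!
# Threshold circuits with unbounded weights and unbounded fan-in: the voters

`BTree n d B D N`: decision trees with at most `B` probes and at most `D` sign queries of real
polynomials of degree at most `d` in all the weights, where several sign queries may be asked at
once (a batch), and at most `N` sign queries are left in the whole tree on fixing one result at each
probe node. `IsPool`: decision trees with few different sign queries. `Price4`: the price of a voter. The
functions of additive threshold gates (`IsJunta`) are defined in `Helper8/UV/Defs.lean`.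
-/

set_option autoImplicit false

open Finset
open scoped BigOperators

namespace Pool.Agent.Helper21.UV4

open Pool.Agent.Helper22.ETModel Pool.Agent.Helper8.VT Pool.Agent.Helper8.UV
open Pool.Agent.Helper21.UV3

/-- Decision trees with at most `B` probes and at most `D` sign queries on every path, and with at
most `N` sign queries in the whole tree if one result is fixed at each probe node (at each node
separately, even if two nodes probe the same cell). A probe reads the weight in one cell. A batch asks for `m` polynomials `p i` of degree at most `d`, whose variables are the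
weights in all the cells, at once whether `p i (w) ≥ 0`. The further course depends in an arbitrary
way on the answers. A leaf carries the output. The number of sign queries in the whole tree is `0`
for a leaf; for a probe it is bounded by `N` if it is bounded by `N` for all results of the probe;
for a batch it is `m` plus the sum over the `2 ^ m` sons. -/
inductive BTree (n d : ℕ) : ℕ → ℕ → ℕ → Type
  | leaf {B D N : ℕ} (v : ℝ) : BTree n d B D N
  | probe {B D N : ℕ} (i j : Fin n) (next : ℤ → BTree n d B D N) : BTree n d (B + 1) D N
  | batch {B D N' : ℕ} (m : ℕ) (N : (Fin m → Bool) → ℕ) (hN : m + ∑ a, N a ≤ N')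
      (p : Fin m → MvPolynomial (Fin n × Fin n) ℝ) (hp : ∀ i, (p i).totalDegree ≤ d)
      (next : (a : Fin m → Bool) → BTree n d B D (N a)) : BTree n d B (D + m) N'

open Classical in
/-- The output of a tree on the weights `w`. -/
noncomputable def BTree.eval {n d : ℕ} : {B D N : ℕ} → BTree n d B D N → Wts n → ℝ
  | _, _, _, .leaf v, _ => v
  | _, _, _, .probe i j next, w => (next (w i j)).eval w
  | _, _, _, .batch _ _ _ p _ next, w => (next fun i => decide (0 ≤ pval (p i) w)).eval w

/-- `H` is computed by trees with batches, which know the flags. -/
def IsBatch {n : ℕ} (d B D N : ℕ) (H : Inst n → ℝ) : Prop :=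
  ∃ t : Flags n → BTree n d B D N, ∀ I : Inst n, I.Valid → H I = (t I.flag).eval I.wt

/-- All sign queries of the tree belong to `S`. -/
def Uses {n d : ℕ} (S : Finset (MvPolynomial (Fin n × Fin n) ℝ)) :
    {B D : ℕ} → PTree n d B D → Prop
  | _, _, .leaf _ => True
  | _, _, .probe _ _ next => ∀ z, Uses S (next z)
  | _, _, .sign p _ next => p ∈ S ∧ ∀ b, Uses S (next b)

/-- `H` is computed by trees with at most `B` probes and at most `D` sign queries on every path, and
with at most `K` different sign queries; the trees know the flags. -/
def IsPool {n : ℕ} (d B D K : ℕ) (H : Inst n → ℝ) : Prop :=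
  ∃ t : Flags n → PTree n d B D,
    (∀ f, ∃ S : Finset (MvPolynomial (Fin n × Fin n) ℝ), S.card ≤ K ∧ Uses S (t f)) ∧
    ∀ I : Inst n, I.Valid → H I = (t I.flag).eval I.wt

/-- `κ` is the price of the voter `H`: `0` for a voter that does not depend on the weights,
`(B + D) ^ (3/2)` for a decision tree with `B` probes, `D` sign queries on every path, and at most
`2 ^ (s * (log n + 1))` sign queries left in the whole tree on fixing one result at each probe node,
`(B + (s + 3) * (log n + 1) * D) ^ (3/2)` for a decision tree with `B` probes, `D` sign queries and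
at most `2 ^ (s * (log n + 1))` different ones, `√k * W` for a function of `k` additive threshold
gates with `W` wires. -/
def Price4 {n : ℕ} (d s : ℕ) (H : Inst n → ℝ) (κ : ℝ) : Prop :=
  (κ = 0 ∧ ∃ F : Flags n → ℝ, ∀ I : Inst n, I.Valid → H I = F I.flag) ∨
    (∃ B D : ℕ, 1 ≤ B + D ∧ IsBatch d B D (2 ^ (s * (Nat.log 2 n + 1))) H ∧
      κ = ((B + D : ℕ) : ℝ) ^ (3 / 2 : ℝ)) ∨
    (∃ B D : ℕ, 1 ≤ B + D ∧ IsPool d B D (2 ^ (s * (Nat.log 2 n + 1))) H ∧
      κ = ((B + (s + 3) * (Nat.log 2 n + 1) * D : ℕ) : ℝ) ^ (3 / 2 : ℝ)) ∨
    ∃ k W : ℕ, 1 ≤ k ∧ 1 ≤ W ∧ IsJunta k W H ∧ κ = Real.sqrt k * W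

end Pool.Agent.Helper21.UV4
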