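import Pool.Agent.Helper21.UV4.Model
import Pool.Agent.Helper21.UV3.UpperP

/-!
# Upper bounds
-/

set_option autoImplicit false

open Finset
open scoped BigOperators

namespace Pool.Agent.Helper21.UV4

open Pool.Agent.Helper22.ETModel Pool.Agent.Helper8.VT Pool.Agent.Helper8.UV
open Pool.Agent.Helper21.UV3

/-- A tree as a tree with batches. -/
noncomputable def ofP {n d : ℕ} : {B D : ℕ} → PTree n d B D → BTree n d B D (2 ^ D - 1)
  | _, _, .leaf v => .leaf v
  | _, _, .probe i j next => .probe i j fun z => ofP (next z)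
  | _, _, @PTree.sign _ _ _ D p hp next =>
    .batch 1 (fun _ => 2 ^ D - 1) (by
      rw [Finset.sum_const, Finset.card_univ, Fintype.card_fun, Fintype.card_bool,
        Fintype.card_fin, smul_eq_mul, pow_succ]
      have : 1 ≤ 2 ^ D := Nat.one_le_pow _ _ (by norm_num)
      omega) (fun _ => p) (fun _ => hp) fun a => ofP (next (a 0))

theorem ofP_eval {n d : ℕ} {B D : ℕ} (t : PTree n d B D) (w : Wts n) :
    (ofP t).eval w = t.eval w := by
  induction t with
  | leaf v => rfl
  | probe i j next ih => exact ih _
  | sign p hp next ih => exact ih _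

/-- Trees with single sign queries. -/
theorem isBatch_of_isReader {n d B D N : ℕ} {H : Inst n → ℝ} (h : IsReader d B D H)
    (hN : 2 ^ D - 1 = N) : IsBatch d B D N H := by
  obtain ⟨t, ht⟩ := h
  subst hN
  exact ⟨fun f => ofP (t f), fun I hI => by rw [ht I hI, ofP_eval]⟩

end Pool.Agent.Helper21.UV4
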