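import Pool.Agent.Helper21.UV4.Model
import Pool.Agent.Helper21.UV3.Ideal
import Pool.Agent.Helper21.UV3.Prob

/-!
# The ideal probe tree of a tree with few different sign queries
-/

set_option autoImplicit false
set_option linter.unusedSectionVars false

open Finset
open scoped BigOperators

namespace Pool.Agent.Helper21.UV4

open Pool.Agent.Helper22.ETModel Pool.Agent.Helper8.VT Pool.Agent.Helper8.UV
open Pool.Agent.Helper21.UV Pool.Agent.Helper21.UV3

section
variable {n m q P : ℕ} [NeZero q]

/-- The reading phase of one query, started without known values. -/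
theorem pool_phase {d : ℕ} (h9 : 9 * m ≤ n) (hP : 0 < P) (hq : 11 * q ≤ P) {Λ ω : ℝ}
    (hΛ : 2 ≤ Λ)
    (hω : ((Fintype.card (Key m) : ℝ) + 1) ^ d * d * q * Λ ^ (d - 1) / P ≤ ω)
    (μ : Key m → Fin (10 * P)) {B D Bc : ℕ} (Bad : Cfg m q → Cfg m q → Cfg m q → Prop)
    (p : MvPolynomial (Fin n × Fin n) ℝ) (hp : p.totalDegree ≤ d) (next : Bool → PTree n d B D)
    (ih : ∀ b, ∃ T : Tree n Bc, ∀ X Y Z : Cfg m q, ¬ Bad X Y Z →
      T.eval (WM n P μ X Y Z) = (next b).eval (WM n P μ X Y Z)) :
    ∀ (f : ℕ) (A : Finset (Key m)) (l : List (Key m)) (v0 : Key m → ZMod q) (τ : ℝ),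
      l.Nodup → (∀ e ∈ l, e ∉ A) → (l ≠ [] → Rob n q P p μ A v0 τ) →
      ∃ T : Tree n (Bc + f), ∀ X Y Z : Cfg m q,
        (∀ e ∈ A, val3 X Y Z e = v0 e) →
        (l ≠ [] → (∀ e ∈ l, (μ e : ℕ) < P) → τ < |pval p (WM n P μ X Y Z)|) →
        ¬ phaseP q P Λ ω μ (tot q P μ X Y Z) p (pval p (WM n P μ X Y Z))
          (fun _ => False) f A l → ¬ Bad X Y Z →
        T.eval (WM n P μ X Y Z) =
          (next (decide (0 ≤ pval p (WM n P μ X Y Z)))).eval (WM n P μ X Y Z) := by
  intro f
  induction f with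
  | zero =>
    intro A l v0 τ _ _ _
    exact ⟨.leaf 0, fun X Y Z _ _ h => absurd (by unfold phaseP; trivial) h⟩
  | succ f ihf =>
    intro A l v0 τ hnd hdis hrob
    rcases l with _ | ⟨e, l⟩
    · rcases htop : topm Λ P (RR m q A (kv q P μ v0) p) with _ | s
      · obtain ⟨T0, hT0⟩ := ih (decide (0 ≤ pv m q p (iv q P μ A v0)))
        obtain ⟨T, hT⟩ := tree_up_leL (show Bc ≤ Bc + (f + 1) by omega) T0
        refine ⟨T, fun X Y Z hA _ hph hbad => ?_⟩
        have heq : pval p (WM n P μ X Y Z) = pv m q p (iv q P μ A v0) := by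
          rw [pval_WM, ← RR_eval (tot_kv μ v0 X Y Z hA) p,
            ← RR_eval (W := iv q P μ A v0) (v := kv q P μ v0) (A := A)
              (fun e he => by unfold iv kv; rw [if_pos he]) p]
          exact eval_const (topm_none htop) _ _
        rw [heq, (hT _).1]
        exact hT0 X Y Z hbad
      · obtain ⟨t1, t2, t3, t4⟩ := top_list (d := d) hp htop
        have hr := Rob_top hP hΛ hω hp htop
        obtain ⟨T0, hT0⟩ := ihf A s.support.toList v0
          (thr ω P (RR m q A (kv q P μ v0) p) s) t1 t2 (fun _ => hr)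
        obtain ⟨T, hT⟩ := tree_up_leL (show Bc + f ≤ Bc + (f + 1) by omega) T0
        refine ⟨T, fun X Y Z hA _ hph hbad => ?_⟩
        have hRR : RR m q A (tot q P μ X Y Z) p = RR m q A (kv q P μ v0) p :=
          RR_congr (tot_kv μ v0 X Y Z hA) p
        unfold phaseP at hph
        rw [hRR, htop] at hph
        simp only [not_or] at hph
        obtain ⟨hb, hph⟩ := hph
        rw [(hT _).1]
        refine hT0 X Y Z hA (fun _ hall => ?_) hph hbad
        by_contra hcon
        push Not at hcon
        exact hb ⟨fun e he => hall e (by simpa using he), hcon⟩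
    · have he1 : e ∉ A := hdis e (List.mem_cons_self ..)
      have hnd' : l.Nodup := (List.nodup_cons.1 hnd).2
      have hel : e ∉ l := (List.nodup_cons.1 hnd).1
      have hdis' : ∀ e' ∈ l, e' ∉ insert e A := by
        intro e' he' h
        rcases Finset.mem_insert.1 h with h | h
        · rw [h] at he'; exact hel he'
        · exact hdis e' (List.mem_cons_of_mem _ he') h
      have hr := hrob (by simp)
      by_cases hbig : (μ e : ℕ) < P
      · by_cases hl : l = []
        · choose T' hT' using fun z : ZMod q => ih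
            (decide (0 ≤ pv m q p (iv q P μ (insert e A) (Function.update v0 e z))))
          obtain ⟨T0, hT0⟩ := tree_readL h9 μ e T'
          obtain ⟨T, hT⟩ := tree_up_leL (show Bc + 1 ≤ Bc + (f + 1) by omega) T0
          refine ⟨T, fun X Y Z hA hτ hph hbad => ?_⟩
          have hA' := known_insert A v0 X Y Z hA e
          have hL : τ < |pval p (WM n P μ X Y Z)| := hτ (by simp) (by
            intro e' he'
            rw [hl, List.mem_singleton] at he'
            rw [he']; exact hbig)
          have hd := Rob_insert hr e he1 (val3 X Y Z e) (tot q P μ X Y Z)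
            (iv q P μ (insert e A) (Function.update v0 e (val3 X Y Z e)))
            (tot_kv μ _ X Y Z hA')
            (fun e' he' => by unfold iv kv; rw [if_pos he'])
            (tot_bound hq μ X Y Z) (iv_bound hq μ _ _) (tot_iv μ _ _ X Y Z hA')
          rw [← pval_WM] at hd
          have hb : decide (0 ≤ pv m q p (iv q P μ (insert e A)
              (Function.update v0 e (val3 X Y Z e)))) =
              decide (0 ≤ pval p (WM n P μ X Y Z)) := by
            apply decide_eq_decide.2
            rw [abs_le] at hd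
            have hτ0 : 0 ≤ τ := le_trans (abs_nonneg _) (by
              rw [← abs_le] at hd; exact hd)
            rcases lt_abs.1 hL with h | h
            · constructor <;> intro _ <;> linarith [hd.1, hd.2]
            · constructor <;> intro h' <;> exfalso <;> linarith [hd.1, hd.2]
          rw [(hT _).1, (hT0 X Y Z).1]
          have := hT' (val3 X Y Z e) X Y Z hbad
          rwa [hb] at this
        · choose T' hT' using fun z : ZMod q => ihf (insert e A) l (Function.update v0 e z) τ
            hnd' hdis' (fun _ => Rob_insert hr e he1 z)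
          obtain ⟨T, hT⟩ := tree_readL h9 μ e T'
          refine ⟨T, fun X Y Z hA hτ hph hbad => ?_⟩
          have hA' := known_insert A v0 X Y Z hA e
          unfold phaseP at hph
          rw [if_pos hbig, if_neg hl] at hph
          rw [(hT X Y Z).1]
          refine hT' (val3 X Y Z e) X Y Z hA' (fun _ hall => ?_) hph hbad
          refine hτ (by simp) (fun e' he' => ?_)
          rcases List.mem_cons.1 he' with h | h
          · rw [h]; exact hbig
          · exact hall e' h
      · choose T' hT' using fun z : ZMod q => ihf (insert e A) [] (Function.update v0 e z) 0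
          List.nodup_nil (fun e' he' => by simp at he') (fun h => absurd rfl h)
        obtain ⟨T, hT⟩ := tree_readL h9 μ e T'
        refine ⟨T, fun X Y Z hA hτ hph hbad => ?_⟩
        have hA' := known_insert A v0 X Y Z hA e
        unfold phaseP at hph
        rw [if_neg hbig] at hph
        rw [(hT X Y Z).1]
        exact hT' (val3 X Y Z e) X Y Z hA' (fun h => absurd rfl h) hph hbad

/-- The exceptional event of one polynomial. -/
def Bd (n c1 q P : ℕ) [NeZero q] (Λ ω : ℝ) (μ : Key m → Fin (10 * P)) (X Y Z : Cfg m q)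
    (p : MvPolynomial (Fin n × Fin n) ℝ) : Prop :=
  phaseP q P Λ ω μ (tot q P μ X Y Z) p (pval p (WM n P μ X Y Z)) (fun _ => False) c1 ∅ []

/-- The ideal probe tree of a tree with sign queries from `S`. -/
theorem pool_ideal {d : ℕ} (h9 : 9 * m ≤ n) (hP : 0 < P) (hq : 11 * q ≤ P) {Λ ω : ℝ}
    (hΛ : 2 ≤ Λ)
    (hω : ((Fintype.card (Key m) : ℝ) + 1) ^ d * d * q * Λ ^ (d - 1) / P ≤ ω)
    (c1 : ℕ) (μ : Key m → Fin (10 * P)) (S : Finset (MvPolynomial (Fin n × Fin n) ℝ))
    {B D : ℕ} (t : PTree n d B D) (ht : Uses S t) :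
    ∃ T : Tree n (B + c1 * D), ∀ X Y Z : Cfg m q, ¬ (∃ p ∈ S, Bd n c1 q P Λ ω μ X Y Z p) →
      T.eval (WM n P μ X Y Z) = t.eval (WM n P μ X Y Z) := by
  induction t with
  | leaf v => exact ⟨.leaf v, fun X Y Z _ => rfl⟩
  | @probe B D i j next ih =>
    choose T' hT' using fun z : ℤ => ih z (ht z)
    have hd : B + 1 + c1 * D = B + c1 * D + 1 := by omega
    rw [hd]
    exact ⟨.node i j T', fun X Y Z h => hT' (WM n P μ X Y Z i j) X Y Z h⟩
  | @sign B D p hp next ih =>
    have hd : B + c1 * (D + 1) = B + c1 * D + c1 := by ring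
    rw [hd]
    obtain ⟨T, hT⟩ := pool_phase h9 hP hq hΛ hω μ
      (fun X Y Z => ∃ p ∈ S, Bd n c1 q P Λ ω μ X Y Z p) p hp next (fun b => ih b (ht.2 b)) c1 ∅ []
      (fun _ => 0) 0 List.nodup_nil (fun e' he' => by simp at he') (fun h => absurd rfl h)
    exact ⟨T, fun X Y Z h => hT X Y Z (fun e he => absurd he (Finset.notMem_empty e))
      (fun h => absurd rfl h) (fun hbd => h ⟨p, ht.1, hbd⟩) h⟩

open Classical in
/-- The probability of the exceptional event. -/
theorem pool_prob {d : ℕ} (hP : 0 < P) (Λ ω ε : ℝ) (hε0 : 0 ≤ ε) (c1 : ℕ) (X Y Z : Cfg m q)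
    (hanti : AntiS n d q P m Λ ω ε X Y Z) (S : Finset (MvPolynomial (Fin n × Fin n) ℝ))
    (hS : ∀ p ∈ S, p.totalDegree ≤ d) :
    ((univ.filter fun μ : Key m → Fin (10 * P) =>
      ∃ p ∈ S, Bd n c1 q P Λ ω μ X Y Z p).card : ℝ) ≤
    S.card * (zetd d ^ c1 * 2 + ε * 10 ^ d) * (10 * P) ^ Fintype.card (Key m) := by
  have h1 : fib (∅ : Finset (Key m)) (fun _ => (⟨0, by omega⟩ : Fin (10 * P))) = univ := by
    ext μ
    simp [mem_fib]
  have h2 : ((fib (∅ : Finset (Key m)) (fun _ => (⟨0, by omega⟩ : Fin (10 * P)))).card : ℝ) =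
      (10 * P) ^ Fintype.card (Key m) := by
    rw [card_fib, Finset.sdiff_empty, Finset.card_univ]
    push_cast
    rfl
  have h3 : ∀ p ∈ S, ((univ.filter fun μ : Key m → Fin (10 * P) =>
      Bd n c1 q P Λ ω μ X Y Z p).card : ℝ) ≤
      (zetd d ^ c1 * 2 + ε * 10 ^ d) * (10 * P) ^ Fintype.card (Key m) := by
    intro p hp
    have h := phase_prob Λ ω ε hε0 X Y Z hanti p (hS p hp) (fun _ _ => False) 0
      (fun A μ0 => by simp) c1 ∅ [] (fun _ => (⟨0, by omega⟩ : Fin (10 * P)))
      List.nodup_nil (fun e' he' => by simp at he') (by simp)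
    have hpot : pot ([] : List (Key m)) = 2 := by simp [pot]
    have hsel : sel d ([] : List (Key m)) = 10 ^ d := by simp [sel]
    rw [h2, h1, hpot, hsel, add_zero] at h
    exact h
  have h4 : (univ.filter fun μ : Key m → Fin (10 * P) =>
      ∃ p ∈ S, Bd n c1 q P Λ ω μ X Y Z p) ⊆
      S.biUnion fun p => univ.filter fun μ : Key m → Fin (10 * P) =>
        Bd n c1 q P Λ ω μ X Y Z p := by
    intro μ hμ
    rw [Finset.mem_filter] at hμ
    obtain ⟨-, p, hp, h⟩ := hμ
    rw [Finset.mem_biUnion]
    exact ⟨p, hp, Finset.mem_filter.2 ⟨Finset.mem_univ _, h⟩⟩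
  have h5 := (Finset.card_le_card h4).trans Finset.card_biUnion_le
  have h6 : ((univ.filter fun μ : Key m → Fin (10 * P) =>
      ∃ p ∈ S, Bd n c1 q P Λ ω μ X Y Z p).card : ℝ) ≤
      ∑ p ∈ S, ((univ.filter fun μ : Key m → Fin (10 * P) =>
        Bd n c1 q P Λ ω μ X Y Z p).card : ℝ) := by exact_mod_cast h5
  refine h6.trans ((Finset.sum_le_sum h3).trans (le_of_eq ?_))
  rw [Finset.sum_const, nsmul_eq_mul]
  ring

end

end Pool.Agent.Helper21.UV4
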