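import Pool.Agent.Helper21.UV4.Conv
import Pool.Agent.Helper21.UV4.PoolT
import Pool.Agent.Helper21.UV3.ReaderCap

/-!
# The capacity of trees with batches and of trees with few different sign queries
-/

set_option autoImplicit false
set_option linter.unusedSectionVars false

open Finset
open scoped BigOperators

namespace Pool.Agent.Helper21.UV4

open Pool.Agent.Helper22.ETModel Pool.Agent.Helper8.VT Pool.Agent.Helper8.UV
open Pool.Agent.Helper21.UV Pool.Agent.Helper21.UV3
open Pool.Agent.Helper8.VS (ind ind_nonneg ind_le_one ind_true ind_false)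

/-- The length is at most the depth. -/
theorem tlen_le {n D : ℕ} (t : Tree n D) (w : Wts n) : tlen t w ≤ D := by
  induction t with
  | leaf v => exact Nat.zero_le _
  | node i j next ih =>
    have := ih (w i j)
    simp only [tlen]
    omega

theorem uses_filter {n d : ℕ} {S : Finset (MvPolynomial (Fin n × Fin n) ℝ)} {B D : ℕ}
    (t : PTree n d B D) (h : Uses S t) : Uses (S.filter fun p => p.totalDegree ≤ d) t := by
  induction t with
  | leaf v => exact h
  | probe i j next ih => exact fun z => ih z (h z)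
  | sign p hp next ih =>
    exact ⟨Finset.mem_filter.2 ⟨h.1, hp⟩, fun b => ih b (h.2 b)⟩

section
variable {n m q P : ℕ} [NeZero q]

/-- The capacity of a tree with batches. -/
theorem batch_cap {d : ℕ} (h9 : 9 * m ≤ n) (hP : 0 < P) (hq : 11 * q ≤ P) {Λ ω ε : ℝ}
    (hΛ : 2 ≤ Λ) (hω : ((Fintype.card (Key m) : ℝ) + 1) ^ d * d * q * Λ ^ (d - 1) / P ≤ ω)
    (hε0 : 0 ≤ ε) (hanti : ∀ X Y Z : Cfg m q, AntiS n d q P m Λ ω ε X Y Z)
    (hval : ∀ (μ : Key m → Fin (10 * P)) (X Y Z : Cfg m q), (mkM n P μ X Y Z).Valid)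
    (H : Inst n → ℝ) (B D N c1 : ℕ) (hN : 1 ≤ B + D) (hR : IsBatch d B D N H) :
    ∑ μ : Key m → Fin (10 * P), cap (GM (mkM (m := m) (q := q) n P μ) H) ≤
      Fintype.card (Key m → Fin (10 * P)) *
        (192 * m * (4 * (9 * 100 ^ d) * √(((B + D : ℕ) : ℝ) ^ 3)) +
        32 * (m : ℝ) ^ 4 * (N * (zetd d ^ c1 * 2 + ε * 10 ^ d))) := by
  classical
  have hP' : (0 : ℝ) < P := by exact_mod_cast hP
  obtain ⟨tr, htr⟩ := hR
  set t : PTree n d B D := toP (tr (fl n)) with ht
  choose T hT using fun μ : Key m → Fin (10 * P) =>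
    ideal (q := q) h9 hP hq (one_le_lamd d) hΛ hω c1 μ t
  have hne : Nonempty (Key m → Fin (10 * P)) := ⟨fun _ => ⟨0, by omega⟩⟩
  have hz := zetd_nonneg d
  set δ : ℝ := N * (zetd d ^ c1 * 2 + ε * 10 ^ d) with hδ
  have hδ0 : 0 ≤ δ := by positivity
  have h1 := approx_cap (M := Key m → Fin (10 * P)) (fun μ => GM (mkM (m := m) (q := q) n P μ) H)
    (fun μ X Y Z => (T μ).eval (WM n P μ X Y Z))
    (fun μ X Y Z => t.exc c1 q P Λ ω μ (WM n P μ X Y Z) (tot q P μ X Y Z) ∅)
    (by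
      intro μ X Y Z h
      rw [(hT μ X Y Z).1 h]
      unfold GM
      rw [htr _ (hval μ X Y Z), ht, toP_eval]
      rfl) δ hδ0
    (by
      intro X Y Z
      have h := batch_card hP Λ ω ε hε0 c1 (tr (fl n)) X Y Z (hanti X Y Z)
      rw [← ht] at h
      have h2 : (∑ μ : Key m → Fin (10 * P),
          ind (t.exc c1 q P Λ ω μ (WM n P μ X Y Z) (tot q P μ X Y Z) ∅)) ≤
          ((univ.filter fun μ : Key m → Fin (10 * P) =>
            t.excN c1 q P Λ ω μ (WM n P μ X Y Z) (tot q P μ X Y Z) ∅).card : ℝ) := by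
        rw [Finset.card_filter]
        push_cast
        refine Finset.sum_le_sum fun μ _ => ?_
        by_cases hex : t.exc c1 q P Λ ω μ (WM n P μ X Y Z) (tot q P μ X Y Z) ∅
        · rw [ind_true hex, if_pos (t.excN_of_exc ∅ hex)]
        · rw [ind_false hex]
          split_ifs
          · exact zero_le_one
          · exact le_rfl
      refine h2.trans (h.trans (le_of_eq ?_))
      rw [hδ]
      congr 1
      rw [Fintype.card_fun, Fintype.card_fin]
      push_cast
      ring)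
  have h2 : ∑ μ : Key m → Fin (10 * P),
      cap (fun X Y Z : Cfg m q => (T μ).eval (WM n P μ X Y Z)) ≤
      192 * m * (4 * (9 * 100 ^ d) * √(((B + D : ℕ) : ℝ) ^ 3)) *
        Fintype.card (Key m → Fin (10 * P)) := by
    have h3 : ∀ μ : Key m → Fin (10 * P),
        cap (fun X Y Z : Cfg m q => (T μ).eval (WM n P μ X Y Z)) ≤
        192 * m * bas (fun X Y Z : Cfg m q => √((tlen (T μ) (WM n P μ X Y Z) : ℝ) ^ 3)) := fun μ =>
      tree_cap_len (placeH (fun _ _ => 10 * q) (hM P μ)) (T μ)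
    refine (Finset.sum_le_sum fun μ _ => h3 μ).trans ?_
    rw [← Finset.mul_sum, bas_fsum]
    have h4 : bas (fun X Y Z : Cfg m q => ∑ μ : Key m → Fin (10 * P),
        √((tlen (T μ) (WM n P μ X Y Z) : ℝ) ^ 3)) ≤
        4 * (9 * 100 ^ d) * √(((B + D : ℕ) : ℝ) ^ 3) * Fintype.card (Key m → Fin (10 * P)) := by
      refine (bas_mono _ (fun _ _ _ => 4 * (9 * 100 ^ d) * √(((B + D : ℕ) : ℝ) ^ 3) *
        Fintype.card (Key m → Fin (10 * P))) fun X Y Z => ?_).trans
        (le_of_eq (bas_const _))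
      choose S hS1 hS2 using fun μ : Key m → Fin (10 * P) => (hT μ X Y Z).2
      refine moment_bound (lamd d) (9 * 100 ^ d) (one_le_lamd d) (by positivity)
        (sqrt_cube_le d) (B + D) B hN (by omega) _ S hS1
        (fun μ => t.mom c1 q P Λ (lamd d) μ (WM n P μ X Y Z) (tot q P μ X Y Z) ∅) hS2 ?_
      refine (mom_avg hP Λ c1 X Y Z t).trans ?_
      refine mul_le_mul_of_nonneg_right ?_ (Nat.cast_nonneg _)
      exact pow_le_pow_right₀ (by norm_num) (by omega)
    calc 192 * (m : ℝ) * bas (fun X Y Z : Cfg m q => ∑ μ : Key m → Fin (10 * P),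
        √((tlen (T μ) (WM n P μ X Y Z) : ℝ) ^ 3))
        ≤ 192 * m * (4 * (9 * 100 ^ d) * √(((B + D : ℕ) : ℝ) ^ 3) *
          Fintype.card (Key m → Fin (10 * P))) :=
          mul_le_mul_of_nonneg_left h4 (by positivity)
      _ = _ := by ring
  refine h1.trans ?_
  linarith

/-- The capacity of a tree with few different sign queries. -/
theorem pool_cap {d : ℕ} (h9 : 9 * m ≤ n) (hP : 0 < P) (hq : 11 * q ≤ P) {Λ ω ε : ℝ}
    (hΛ : 2 ≤ Λ) (hω : ((Fintype.card (Key m) : ℝ) + 1) ^ d * d * q * Λ ^ (d - 1) / P ≤ ω)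
    (hε0 : 0 ≤ ε) (hanti : ∀ X Y Z : Cfg m q, AntiS n d q P m Λ ω ε X Y Z)
    (hval : ∀ (μ : Key m → Fin (10 * P)) (X Y Z : Cfg m q), (mkM n P μ X Y Z).Valid)
    (H : Inst n → ℝ) (B D K c1 : ℕ) (hR : IsPool d B D K H) :
    ∑ μ : Key m → Fin (10 * P), cap (GM (mkM (m := m) (q := q) n P μ) H) ≤
      Fintype.card (Key m → Fin (10 * P)) *
        (192 * m * √(((B + c1 * D : ℕ) : ℝ) ^ 3) +
        32 * (m : ℝ) ^ 4 * (K * (zetd d ^ c1 * 2 + ε * 10 ^ d))) := by
  classical
  have hP' : (0 : ℝ) < P := by exact_mod_cast hP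
  obtain ⟨tr, hS, htr⟩ := hR
  obtain ⟨S0, hS0, hU0⟩ := hS (fl n)
  set t : PTree n d B D := tr (fl n) with ht
  obtain ⟨S, hSdef⟩ : ∃ S, S = S0.filter fun p => p.totalDegree ≤ d := ⟨_, rfl⟩
  have hU : Uses S t := by
    rw [hSdef]
    exact uses_filter t hU0
  have hSd : ∀ p ∈ S, p.totalDegree ≤ d := by
    intro p hp
    rw [hSdef, Finset.mem_filter] at hp
    exact hp.2
  have hSc : (S.card : ℝ) ≤ K := by
    have : S.card ≤ K := by
      rw [hSdef]
      exact (Finset.card_filter_le _ _).trans hS0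
    exact_mod_cast this
  choose T hT using fun μ : Key m → Fin (10 * P) =>
    pool_ideal (q := q) h9 hP hq hΛ hω c1 μ S t hU
  have hz := zetd_nonneg d
  set δ : ℝ := K * (zetd d ^ c1 * 2 + ε * 10 ^ d) with hδ
  have hδ0 : 0 ≤ δ := by positivity
  have h1 := approx_cap (M := Key m → Fin (10 * P)) (fun μ => GM (mkM (m := m) (q := q) n P μ) H)
    (fun μ X Y Z => (T μ).eval (WM n P μ X Y Z))
    (fun μ X Y Z => ∃ p ∈ S, Bd n c1 q P Λ ω μ X Y Z p)
    (by
      intro μ X Y Z h
      rw [hT μ X Y Z h]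
      unfold GM
      rw [htr _ (hval μ X Y Z)]
      rfl) δ hδ0
    (by
      intro X Y Z
      have h := pool_prob hP Λ ω ε hε0 c1 X Y Z (hanti X Y Z) S hSd
      have h2 : (∑ μ : Key m → Fin (10 * P),
          ind (∃ p ∈ S, Bd n c1 q P Λ ω μ X Y Z p)) ≤
          ((univ.filter fun μ : Key m → Fin (10 * P) =>
            ∃ p ∈ S, Bd n c1 q P Λ ω μ X Y Z p).card : ℝ) := by
        rw [Finset.card_filter]
        push_cast
        refine Finset.sum_le_sum fun μ _ => ?_
        by_cases hex : ∃ p ∈ S, Bd n c1 q P Λ ω μ X Y Z p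
        · rw [ind_true hex, if_pos hex]
        · rw [ind_false hex, if_neg hex]
      refine h2.trans (h.trans ?_)
      rw [hδ, Fintype.card_fun, Fintype.card_fin]
      push_cast
      refine mul_le_mul_of_nonneg_right ?_ (by positivity)
      exact mul_le_mul_of_nonneg_right hSc (by positivity))
  have h2 : ∑ μ : Key m → Fin (10 * P),
      cap (fun X Y Z : Cfg m q => (T μ).eval (WM n P μ X Y Z)) ≤
      Fintype.card (Key m → Fin (10 * P)) * (192 * m * √(((B + c1 * D : ℕ) : ℝ) ^ 3)) := by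
    have h3 : ∀ μ : Key m → Fin (10 * P),
        cap (fun X Y Z : Cfg m q => (T μ).eval (WM n P μ X Y Z)) ≤
        192 * m * √(((B + c1 * D : ℕ) : ℝ) ^ 3) := by
      intro μ
      refine (tree_cap_len (placeH (fun _ _ => 10 * q) (hM P μ)) (T μ)).trans ?_
      refine mul_le_mul_of_nonneg_left ?_ (by positivity)
      refine (bas_mono _ (fun _ _ _ => √(((B + c1 * D : ℕ) : ℝ) ^ 3)) fun X Y Z => ?_).trans
        (le_of_eq (bas_const _))
      refine Real.sqrt_le_sqrt (pow_le_pow_left₀ (Nat.cast_nonneg _) ?_ 3)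
      exact_mod_cast tlen_le (T μ) _
    refine (Finset.sum_le_sum fun μ _ => h3 μ).trans (le_of_eq ?_)
    rw [Finset.sum_const, Finset.card_univ, nsmul_eq_mul]
  refine h1.trans ?_
  linarith

end

end Pool.Agent.Helper21.UV4
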