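import Pool.Agent.Helper21.UV4.Model
import Pool.Agent.Helper21.UV3.Prob

/-!
# Trees with batches are trees
-/

set_option autoImplicit false
set_option linter.unusedSectionVars false

open Finset
open scoped BigOperators

namespace Pool.Agent.Helper21.UV4

open Pool.Agent.Helper22.ETModel Pool.Agent.Helper8.VT Pool.Agent.Helper8.UV
open Pool.Agent.Helper21.UV Pool.Agent.Helper21.UV3

section
variable {n d : ℕ}

/-- A batch as a chain of sign queries. -/
noncomputable def chain {B D : ℕ} : (m : ℕ) → (p : Fin m → MvPolynomial (Fin n × Fin n) ℝ) →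
    (∀ i, (p i).totalDegree ≤ d) → ((Fin m → Bool) → PTree n d B D) → PTree n d B (D + m)
  | 0, _, _, K => K Fin.elim0
  | m + 1, p, hp, K => .sign (p 0) (hp 0) fun b =>
      chain m (fun i => p i.succ) (fun i => hp i.succ) fun a => K (Fin.cons b a)

theorem chain_eval {B D : ℕ} : ∀ (m : ℕ) (p : Fin m → MvPolynomial (Fin n × Fin n) ℝ)
    (hp : ∀ i, (p i).totalDegree ≤ d) (K : (Fin m → Bool) → PTree n d B D) (w : Wts n),
    (chain m p hp K).eval w = (K fun i => decide (0 ≤ pval (p i) w)).eval w := by
  intro m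
  induction m with
  | zero =>
    intro p hp K w
    show (K Fin.elim0).eval w = _
    congr 2
    funext i
    exact i.elim0
  | succ m ih =>
    intro p hp K w
    show (chain m (fun i => p i.succ) (fun i => hp i.succ)
      fun a => K (Fin.cons (decide (0 ≤ pval (p 0) w)) a)).eval w = _
    rw [ih]
    congr 2
    funext i
    refine Fin.cases ?_ (fun i => ?_) i
    · rw [Fin.cons_zero]
    · rw [Fin.cons_succ]

/-- A tree with batches as a tree. -/
noncomputable def toP : {B D N : ℕ} → BTree n d B D N → PTree n d B D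
  | _, _, _, .leaf v => .leaf v
  | _, _, _, .probe i j next => .probe i j fun z => toP (next z)
  | _, _, _, .batch m _ _ p hp next => chain m p hp fun a => toP (next a)

theorem toP_eval {B D N : ℕ} (t : BTree n d B D N) (w : Wts n) :
    (toP t).eval w = t.eval w := by
  induction t with
  | leaf v => rfl
  | probe i j next ih => exact ih _
  | batch m N hN p hp next ih =>
    show (chain m p hp fun a => toP (next a)).eval w = _
    rw [chain_eval]
    exact ih _

end

section
variable {n d m q P : ℕ}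

open Classical in
/-- The exceptional event of a chain. -/
noncomputable def chE (c1 q P : ℕ) (Λ ω : ℝ) (μ : Key m → Fin (10 * P)) (w : Wts n)
    (v : Key m → ℝ) (nxt : Finset (Key m) → Prop) : (k : ℕ) →
    (Fin k → MvPolynomial (Fin n × Fin n) ℝ) → Finset (Key m) → Prop
  | 0, _, A => nxt A
  | k + 1, p, A => phaseP q P Λ ω μ v (p 0) (pval (p 0) w)
      (fun A' => chE c1 q P Λ ω μ w v nxt k (fun i => p i.succ) A') c1 A []

theorem chE_mono {c1 : ℕ} {Λ ω : ℝ} {μ : Key m → Fin (10 * P)} {w : Wts n} {v : Key m → ℝ}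
    {nxt nxt' : Finset (Key m) → Prop} (h : ∀ A, nxt A → nxt' A) :
    ∀ (k : ℕ) (p : Fin k → MvPolynomial (Fin n × Fin n) ℝ) (A : Finset (Key m)),
      chE c1 q P Λ ω μ w v nxt k p A → chE c1 q P Λ ω μ w v nxt' k p A := by
  intro k
  induction k with
  | zero => intro p A; exact h A
  | succ k ih =>
    intro p A
    unfold chE
    exact phaseP_mono (fun A' => ih _ A') _ _ _

theorem chain_exc {c1 : ℕ} {Λ ω : ℝ} {μ : Key m → Fin (10 * P)} {w : Wts n} {v : Key m → ℝ}
    {B D : ℕ} : ∀ (k : ℕ) (p : Fin k → MvPolynomial (Fin n × Fin n) ℝ)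
      (hp : ∀ i, (p i).totalDegree ≤ d) (K : (Fin k → Bool) → PTree n d B D)
      (A : Finset (Key m)), (chain k p hp K).excN c1 q P Λ ω μ w v A →
      chE c1 q P Λ ω μ w v (fun A' => ∃ a, (K a).excN c1 q P Λ ω μ w v A') k p A := by
  intro k
  induction k with
  | zero =>
    intro p hp K A h
    exact ⟨Fin.elim0, h⟩
  | succ k ih =>
    intro p hp K A h
    unfold chE
    refine phaseP_mono (fun A' hA' => ?_) _ _ _ h
    obtain ⟨b, hb⟩ := hA'
    refine chE_mono (fun A'' hA'' => ?_) _ _ _ (ih _ _ _ _ hb)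
    obtain ⟨a, ha⟩ := hA''
    exact ⟨Fin.cons b a, ha⟩

variable [NeZero q]

open Classical in
/-- The probability of an exceptional run of a chain. -/
theorem chE_prob (Λ ω ε : ℝ) (hε0 : 0 ≤ ε) (c1 : ℕ) (X Y Z : Cfg m q)
    (hanti : AntiS n d q P m Λ ω ε X Y Z)
    (nxt : (Key m → Fin (10 * P)) → Finset (Key m) → Prop) (x : ℝ)
    (hx : ∀ (A : Finset (Key m)) (μ0 : Key m → Fin (10 * P)),
      (((fib A μ0).filter fun μ => nxt μ A).card : ℝ) ≤ x * (fib A μ0).card) :
    ∀ (k : ℕ) (p : Fin k → MvPolynomial (Fin n × Fin n) ℝ) (_ : ∀ i, (p i).totalDegree ≤ d)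
      (A : Finset (Key m)) (μ0 : Key m → Fin (10 * P)),
      (((fib A μ0).filter fun μ => chE c1 q P Λ ω μ (WM n P μ X Y Z) (tot q P μ X Y Z)
        (nxt μ) k p A).card : ℝ) ≤
        (k * (zetd d ^ c1 * 2 + ε * 10 ^ d) + x) * (fib A μ0).card := by
  intro k
  induction k with
  | zero =>
    intro p hp A μ0
    rw [Nat.cast_zero, zero_mul, zero_add]
    exact hx A μ0
  | succ k ih =>
    intro p hp A μ0
    have h := phase_prob Λ ω ε hε0 X Y Z hanti (p 0) (hp 0)
      (fun μ A' => chE c1 q P Λ ω μ (WM n P μ X Y Z) (tot q P μ X Y Z) (nxt μ) k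
        (fun i => p i.succ) A') (k * (zetd d ^ c1 * 2 + ε * 10 ^ d) + x)
      (fun A μ0 => ih (fun i => p i.succ) (fun i => hp i.succ) A μ0) c1 A [] μ0
      List.nodup_nil (fun e' he' => by simp at he') (by simp)
    have hpot : pot ([] : List (Key m)) = 2 := by simp [pot]
    have hsel : sel d ([] : List (Key m)) = 10 ^ d := by simp [sel]
    rw [hpot, hsel] at h
    refine le_trans (le_of_eq ?_) (h.trans (le_of_eq ?_))
    · rfl
    · push_cast
      ring

open Classical in
/-- The probability of an exceptional run of a tree with batches. -/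
theorem batch_prob (Λ ω ε : ℝ) (hε0 : 0 ≤ ε) (c1 : ℕ) (X Y Z : Cfg m q)
    (hanti : AntiS n d q P m Λ ω ε X Y Z) {B D N : ℕ} (t : BTree n d B D N) :
    ∀ (A : Finset (Key m)) (μ0 : Key m → Fin (10 * P)),
      (((fib A μ0).filter fun μ => (toP t).excN c1 q P Λ ω μ (WM n P μ X Y Z)
        (tot q P μ X Y Z) A).card : ℝ) ≤
        (N * (zetd d ^ c1 * 2 + ε * 10 ^ d)) * (fib A μ0).card := by
  have hz := zetd_nonneg d
  obtain ⟨δ, hδ⟩ : ∃ δ : ℝ, δ = zetd d ^ c1 * 2 + ε * 10 ^ d := ⟨_, rfl⟩
  have hδ0 : 0 ≤ δ := by rw [hδ]; positivity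
  rw [← hδ]
  induction t with
  | @leaf B D N v =>
    intro A μ0
    have h : ((fib A μ0).filter fun μ =>
        (toP (BTree.leaf v : BTree n d B D N)).excN c1 q P Λ ω μ (WM n P μ X Y Z)
          (tot q P μ X Y Z) A) = ∅ := by
      refine Finset.filter_false_of_mem fun μ _ => ?_
      simp [toP, PTree.excN]
    rw [h]
    simp only [Finset.card_empty, Nat.cast_zero]
    positivity
  | @probe B D N i j next ih =>
    intro A μ0
    rcases hc : key m i j with _ | ⟨e, c⟩
    · have h : ((fib A μ0).filter fun μ =>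
          (toP (BTree.probe i j next)).excN c1 q P Λ ω μ (WM n P μ X Y Z)
            (tot q P μ X Y Z) A) =
          ((fib A μ0).filter fun μ => (toP (next (10 * q))).excN c1 q P Λ ω μ (WM n P μ X Y Z)
            (tot q P μ X Y Z) A) := by
        refine Finset.filter_congr fun μ _ => ?_
        simp only [toP, PTree.excN, addKey, hc, WM_none μ X Y Z i j hc]
      rw [h]
      exact ih _ A μ0
    · by_cases he : e ∈ A
      · have h : ((fib A μ0).filter fun μ =>
            (toP (BTree.probe i j next)).excN c1 q P Λ ω μ (WM n P μ X Y Z)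
              (tot q P μ X Y Z) A) =
            ((fib A μ0).filter fun μ =>
              (toP (next (mac q P μ0 e + (val3 X Y Z e).val - cpy m q i j))).excN c1 q P Λ ω μ
                (WM n P μ X Y Z) (tot q P μ X Y Z) A) := by
          refine Finset.filter_congr fun μ hμ => ?_
          simp only [toP, PTree.excN, addKey, hc, Finset.insert_eq_of_mem he,
            WM_const he X Y Z i j c hc hμ]
        rw [h]
        exact ih _ A μ0
      · rw [fib_partition he]
        push_cast
        have h1 : ∀ x ∈ (univ : Finset (Fin (10 * P))),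
            (((fib (insert e A) (Function.update μ0 e x)).filter fun μ =>
              (toP (BTree.probe i j next)).excN c1 q P Λ ω μ (WM n P μ X Y Z)
                (tot q P μ X Y Z) A).card : ℝ) ≤
            (N * δ) * (fib (insert e A) μ0).card := by
          intro x _
          have h : ((fib (insert e A) (Function.update μ0 e x)).filter fun μ =>
              (toP (BTree.probe i j next)).excN c1 q P Λ ω μ (WM n P μ X Y Z)
                (tot q P μ X Y Z) A) =
              ((fib (insert e A) (Function.update μ0 e x)).filter fun μ =>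
                (toP (next (mac q P (Function.update μ0 e x) e + (val3 X Y Z e).val -
                  cpy m q i j))).excN c1 q P Λ ω μ (WM n P μ X Y Z) (tot q P μ X Y Z)
                    (insert e A)) := by
            refine Finset.filter_congr fun μ hμ => ?_
            simp only [toP, PTree.excN, addKey, hc,
              WM_const (Finset.mem_insert_self e A) X Y Z i j c hc hμ]
          rw [h]
          have h2 := ih (mac q P (Function.update μ0 e x) e + (val3 X Y Z e).val -
            cpy m q i j) (insert e A) (Function.update μ0 e x)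
          have h3 : (fib (insert e A) (Function.update μ0 e x)).card =
              (fib (insert e A) μ0).card := by rw [card_fib, card_fib]
          rwa [h3] at h2
        refine (Finset.sum_le_sum h1).trans (le_of_eq ?_)
        rw [Finset.sum_const, Finset.card_univ, Fintype.card_fin, nsmul_eq_mul]
        have := card_fib_insert he μ0 μ0
        have h4 : ((10 * P : ℕ) : ℝ) * ((fib (insert e A) μ0).card : ℝ) = (fib A μ0).card := by
          exact_mod_cast this
        rw [← h4]
        ring
  | @batch B D N' k N hN p hp next ih =>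
    intro A μ0
    obtain ⟨nxt, hnxt⟩ : ∃ nxt : (Key m → Fin (10 * P)) → Finset (Key m) → Prop,
        ∀ μ A, nxt μ A ↔ ∃ a, (toP (next a)).excN c1 q P Λ ω μ (WM n P μ X Y Z)
          (tot q P μ X Y Z) A :=
      ⟨fun μ A => ∃ a, (toP (next a)).excN c1 q P Λ ω μ (WM n P μ X Y Z)
        (tot q P μ X Y Z) A, fun _ _ => Iff.rfl⟩
    have hb : ∀ (A : Finset (Key m)) (μ0 : Key m → Fin (10 * P)),
        (((fib A μ0).filter fun μ => nxt μ A).card : ℝ) ≤
          ((∑ a, (N a : ℝ)) * δ) * (fib A μ0).card := by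
      intro A μ0
      have h1 : ((fib A μ0).filter fun μ => nxt μ A) ⊆
          (univ : Finset (Fin k → Bool)).biUnion fun a =>
            (fib A μ0).filter fun μ => (toP (next a)).excN c1 q P Λ ω μ
              (WM n P μ X Y Z) (tot q P μ X Y Z) A := by
        intro μ hμ
        rw [Finset.mem_filter, hnxt] at hμ
        obtain ⟨h2, a, h3⟩ := hμ
        rw [Finset.mem_biUnion]
        exact ⟨a, Finset.mem_univ a, Finset.mem_filter.2 ⟨h2, h3⟩⟩
      have h2 := (Finset.card_le_card h1).trans Finset.card_biUnion_le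
      have h3 : (((fib A μ0).filter fun μ => nxt μ A).card : ℝ) ≤
          ∑ a : Fin k → Bool, (((fib A μ0).filter fun μ => (toP (next a)).excN c1 q P Λ ω μ
              (WM n P μ X Y Z) (tot q P μ X Y Z) A).card : ℝ) := by
        exact_mod_cast h2
      refine h3.trans ((Finset.sum_le_sum fun a _ => ih a A μ0).trans (le_of_eq ?_))
      rw [Finset.sum_mul, Finset.sum_mul]
    have h := chE_prob Λ ω ε hε0 c1 X Y Z hanti nxt ((∑ a, (N a : ℝ)) * δ) hb k p hp A μ0
    rw [← hδ] at h
    have h4 : ((fib A μ0).filter fun μ => (toP (BTree.batch k N hN p hp next)).excN c1 q P Λ ω μ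
        (WM n P μ X Y Z) (tot q P μ X Y Z) A) ⊆
        ((fib A μ0).filter fun μ => chE c1 q P Λ ω μ (WM n P μ X Y Z) (tot q P μ X Y Z)
          (nxt μ) k p A) := by
      intro μ hμ
      rw [Finset.mem_filter] at hμ ⊢
      exact ⟨hμ.1, chE_mono (fun A' hA' => (hnxt μ A').2 hA') _ _ _
        (chain_exc k p hp (fun a => toP (next a)) A hμ.2)⟩
    have h5 := Finset.card_le_card h4
    have h6 : (((fib A μ0).filter fun μ => (toP (BTree.batch k N hN p hp next)).excN c1 q P Λ ω μ
        (WM n P μ X Y Z) (tot q P μ X Y Z) A).card : ℝ) ≤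
        (((fib A μ0).filter fun μ => chE c1 q P Λ ω μ (WM n P μ X Y Z) (tot q P μ X Y Z)
          (nxt μ) k p A).card : ℝ) := by exact_mod_cast h5
    refine h6.trans (h.trans (mul_le_mul_of_nonneg_right ?_ (Nat.cast_nonneg _)))
    have h7 : ((k + ∑ a, N a : ℕ) : ℝ) ≤ N' := by exact_mod_cast hN
    push_cast at h7
    calc (k : ℝ) * δ + (∑ a, (N a : ℝ)) * δ = (k + ∑ a, (N a : ℝ)) * δ := by ring
      _ ≤ N' * δ := mul_le_mul_of_nonneg_right h7 hδ0

open Classical in
theorem batch_card (hP : 0 < P) (Λ ω ε : ℝ) (hε0 : 0 ≤ ε) (c1 : ℕ) {B D N : ℕ}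
    (t : BTree n d B D N) (X Y Z : Cfg m q) (hanti : AntiS n d q P m Λ ω ε X Y Z) :
    ((univ.filter fun μ : Key m → Fin (10 * P) =>
      (toP t).excN c1 q P Λ ω μ (WM n P μ X Y Z) (tot q P μ X Y Z) ∅).card : ℝ) ≤
    N * (zetd d ^ c1 * 2 + ε * 10 ^ d) * (10 * P) ^ Fintype.card (Key m) := by
  have h := batch_prob Λ ω ε hε0 c1 X Y Z hanti t ∅ (fun _ => ⟨0, by omega⟩)
  have h1 : fib (∅ : Finset (Key m)) (fun _ => (⟨0, by omega⟩ : Fin (10 * P))) = univ := by
    ext μ
    simp [mem_fib]
  have h2 : ((fib (∅ : Finset (Key m)) (fun _ => (⟨0, by omega⟩ : Fin (10 * P)))).card : ℝ) =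
      (10 * P) ^ Fintype.card (Key m) := by
    rw [card_fib, Finset.sdiff_empty, Finset.card_univ]
    push_cast
    rfl
  rw [h2, h1] at h
  exact h

end

end Pool.Agent.Helper21.UV4
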