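import Pool.Agent.Helper21.UV4.Cap
import Pool.Agent.Helper21.UV3.Price3

/-!
# Threshold circuits with unbounded weights and unbounded fan-in: the lower bound
-/

set_option autoImplicit false
set_option linter.unusedSectionVars false

open Finset
open scoped BigOperators

namespace Pool.Agent.Helper21.UV4

open Pool.Agent.Helper22.ETModel Pool.Agent.Helper8.VT Pool.Agent.Helper8.UV
open Pool.Agent.Helper21.UV Pool.Agent.Helper21.UV3
open Pool.Agent.Helper8.VS (ind ind_nonneg ind_le_one ind_true ind_false)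

/-- The exceptional part is small. -/
theorem small_exc4 (n d s : ℕ) (x : ℝ) (hn : 2048 ≤ n) (hs : (s + 6) * d ^ 2 ≤ 270)
    (_ : 0 ≤ x) (hx : x ≤ 2 ^ (s * (Nat.log 2 n + 1))) :
    32 * ((n / 9 : ℕ) : ℝ) ^ 3 * (x *
      (zetd d ^ (2 * 20 ^ d * ((s + 3) * (Nat.log 2 n + 1))) * 2 +
        d * d * ((n ^ 299 / Rz n s : ℕ) : ℝ) / (10 * ((n ^ 299 : ℕ) : ℝ)) * 10 ^ d)) ≤
      1 + 10 ^ d := by
  have hK := K_upper n s hn
  have h0 : (0 : ℝ) < Rz n s := by exact_mod_cast Rz_pos n s hn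
  set L := Nat.log 2 n + 1 with hL
  have hn0 : (0 : ℝ) < n := by
    have : 0 < n := by omega
    exact_mod_cast this
  have hn1 : (2048 : ℝ) ≤ n := by exact_mod_cast hn
  have hup : (n : ℝ) ≤ 2 ^ L := by
    have := Nat.lt_pow_succ_log_self (show 1 < 2 by norm_num) n
    have h2 : n ≤ 2 ^ L := by
      rw [hL]
      exact this.le
    exact_mod_cast h2
  have hP : (0 : ℝ) < ((n ^ 299 : ℕ) : ℝ) := by
    have : 0 < n ^ 299 := Nat.pow_pos (by omega)
    exact_mod_cast this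
  set T : ℝ := 2 ^ (s * L) with hT
  have hT0 : 0 < T := by positivity
  have hRT : (Rz n s : ℝ) = n ^ 4 * T := by
    unfold Rz
    push_cast
    rfl
  have h2D : x ≤ T := hx
  set z : ℝ := zetd d ^ (2 * 20 ^ d * ((s + 3) * L)) with hz
  have hz0 : 0 ≤ z := pow_nonneg (zetd_nonneg d) _
  have hz1 : T * z * n ^ 3 ≤ 1 := by
    have e1 : z ≤ (1 / 2) ^ ((s + 3) * L) := by
      rw [hz, pow_mul]
      exact pow_le_pow_left₀ (pow_nonneg (zetd_nonneg d) _) (zetd_pow d) _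
    have e2 : (n : ℝ) ^ 3 ≤ (2 ^ L) ^ 3 := pow_le_pow_left₀ hn0.le hup 3
    have e3 : T * (1 / 2) ^ ((s + 3) * L) * (2 ^ L) ^ 3 = 1 := by
      rw [hT, one_div_pow, ← pow_mul]
      have : (2 : ℝ) ^ ((s + 3) * L) = 2 ^ (s * L) * 2 ^ (L * 3) := by
        rw [← pow_add]
        congr 1
        ring
      rw [this]
      field_simp
    calc T * z * n ^ 3 ≤ T * (1 / 2) ^ ((s + 3) * L) * (2 ^ L) ^ 3 :=
          mul_le_mul (mul_le_mul_of_nonneg_left e1 hT0.le) e2 (by positivity) (by positivity)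
      _ = 1 := e3
  set ε : ℝ := d * d * ((n ^ 299 / Rz n s : ℕ) : ℝ) / (10 * ((n ^ 299 : ℕ) : ℝ)) with hε
  have hε0 : 0 ≤ ε := by positivity
  have hdd : ((d : ℝ) * d) ≤ 45 := by
    have h1 : 6 * d ^ 2 ≤ (s + 6) * d ^ 2 := Nat.mul_le_mul_right _ (by omega)
    have h2 : d * d ≤ 45 := by
      rw [← pow_two]
      omega
    exact_mod_cast h2
  have hε1 : T * ε * n ^ 4 ≤ 9 / 2 := by
    have e1 : ((n ^ 299 / Rz n s : ℕ) : ℝ) * (n ^ 4 * T) / ((n ^ 299 : ℕ) : ℝ) ≤ 1 := by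
      rw [div_le_one hP, ← hRT]
      exact hK
    have e0 : 0 ≤ ((n ^ 299 / Rz n s : ℕ) : ℝ) * (n ^ 4 * T) / ((n ^ 299 : ℕ) : ℝ) := by
      positivity
    calc T * ε * n ^ 4 = (d * d / 10) *
          (((n ^ 299 / Rz n s : ℕ) : ℝ) * (n ^ 4 * T) / ((n ^ 299 : ℕ) : ℝ)) := by
          rw [hε]
          field_simp
      _ ≤ (45 / 10) * 1 := mul_le_mul (by linarith) e1 e0 (by norm_num)
      _ = 9 / 2 := by norm_num
  set M : ℝ := ((n / 9 : ℕ) : ℝ) with hM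
  have hM0 : 0 ≤ M := Nat.cast_nonneg _
  have h9M : 9 * M ≤ n := by
    have : 9 * (n / 9) ≤ n := Nat.mul_div_le n 9
    rw [hM]
    exact_mod_cast this
  have hM3 : 729 * M ^ 3 ≤ n ^ 3 := by
    have := pow_le_pow_left₀ (by positivity) h9M 3
    calc 729 * M ^ 3 = (9 * M) ^ 3 := by ring
      _ ≤ _ := this
  have h10 : (0 : ℝ) < 10 ^ d := by positivity
  have t1 : 32 * M ^ 3 * (x * (z * 2)) ≤ 1 := by
    have hTz : 0 ≤ T * z := by positivity
    calc 32 * M ^ 3 * (x * (z * 2)) ≤ 32 * M ^ 3 * (T * (z * 2)) := by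
          refine mul_le_mul_of_nonneg_left ?_ (by positivity)
          exact mul_le_mul_of_nonneg_right h2D (by positivity)
      _ = (64 / 729) * ((T * z) * (729 * M ^ 3)) := by ring
      _ ≤ (64 / 729) * ((T * z) * n ^ 3) :=
          mul_le_mul_of_nonneg_left (mul_le_mul_of_nonneg_left hM3 hTz) (by norm_num)
      _ ≤ (64 / 729) * 1 := mul_le_mul_of_nonneg_left hz1 (by norm_num)
      _ ≤ 1 := by norm_num
  have t2 : 32 * M ^ 3 * (x * (ε * 10 ^ d)) ≤ 10 ^ d := by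
    have hTε : 0 ≤ T * ε := by positivity
    have e1 : (T * ε) * n ^ 3 ≤ 1 := by
      have e2 : (T * ε) * n ^ 3 * 2048 ≤ T * ε * n ^ 4 := by
        calc (T * ε) * n ^ 3 * 2048 ≤ (T * ε) * n ^ 3 * n :=
              mul_le_mul_of_nonneg_left hn1 (by positivity)
          _ = T * ε * n ^ 4 := by ring
      linarith
    calc 32 * M ^ 3 * (x * (ε * 10 ^ d)) ≤ 32 * M ^ 3 * (T * (ε * 10 ^ d)) := by
          refine mul_le_mul_of_nonneg_left ?_ (by positivity)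
          exact mul_le_mul_of_nonneg_right h2D (by positivity)
      _ = (32 / 729) * ((T * ε) * (729 * M ^ 3)) * 10 ^ d := by ring
      _ ≤ (32 / 729) * ((T * ε) * n ^ 3) * 10 ^ d :=
          mul_le_mul_of_nonneg_right
            (mul_le_mul_of_nonneg_left (mul_le_mul_of_nonneg_left hM3 hTε) (by norm_num)) h10.le
      _ ≤ (32 / 729) * 1 * 10 ^ d :=
          mul_le_mul_of_nonneg_right (mul_le_mul_of_nonneg_left e1 (by norm_num)) h10.le
      _ ≤ 10 ^ d := by linarith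
  calc 32 * M ^ 3 * (x * (z * 2 + ε * 10 ^ d))
      = 32 * M ^ 3 * (x * (z * 2)) + 32 * M ^ 3 * (x * (ε * 10 ^ d)) := by
        ring
    _ ≤ 1 + 10 ^ d := add_le_add t1 t2


theorem price4_nonneg {n d s : ℕ} (H : Inst n → ℝ) (κ : ℝ) (h : Price4 d s H κ) : 0 ≤ κ := by
  rcases h with ⟨rfl, _⟩ | ⟨B, D, _, _, rfl⟩ | ⟨B, D, _, _, rfl⟩ | ⟨k, W, _, _, _, rfl⟩
  · exact le_refl 0
  · positivity
  · positivity
  · positivity

theorem one_le_pool {s L B D : ℕ} (hL : 1 ≤ L) :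
    B + D ≤ B + (s + 3) * L * D := by
  have h1 : 1 ≤ (s + 3) * L := Nat.mul_pos (by omega) hL
  have h2 : D ≤ (s + 3) * L * D := Nat.le_mul_of_pos_left D h1
  omega

theorem one_le_price4 {n d s : ℕ} (H : Inst n → ℝ) (κ : ℝ) (h : Price4 d s H κ) (I J : Inst n)
    (hI : I.Valid) (hJ : J.Valid) (hf : I.flag = J.flag) (hne : H I ≠ H J) : 1 ≤ κ := by
  rcases h with ⟨rfl, F, hF⟩ | ⟨B, D, hB, _, rfl⟩ | ⟨B, D, hB, _, rfl⟩ | ⟨k, W, hk, hW, _, rfl⟩
  · exact absurd (by rw [hF I hI, hF J hJ, hf]) hne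
  · exact Real.one_le_rpow (by exact_mod_cast hB) (by norm_num)
  · refine Real.one_le_rpow ?_ (by norm_num)
    have := hB.trans (one_le_pool (s := s) (L := Nat.log 2 n + 1) (D := D) (by omega))
    exact_mod_cast this
  · have h1 : (1 : ℝ) ≤ Real.sqrt k := by
      rw [Real.one_le_sqrt]
      exact_mod_cast hk
    have h2 : (1 : ℝ) ≤ W := by exact_mod_cast hW
    nlinarith

/-- The length of the probe tree of a pool tree. -/
theorem sqrt_pool (d L B D : ℕ) :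
    √(((B + 2 * 20 ^ d * L * D : ℕ) : ℝ) ^ 3) ≤
      3 * 100 ^ d * ((B + L * D : ℕ) : ℝ) ^ (3 / 2 : ℝ) := by
  rw [← sqrt_cube _ (Nat.cast_nonneg _)]
  apply Real.sqrt_le_iff.2
  refine ⟨by positivity, ?_⟩
  rw [mul_pow, Real.sq_sqrt (by positivity)]
  have h1 : ((B + 2 * 20 ^ d * L * D : ℕ) : ℝ) ≤ 2 * 20 ^ d * ((B + L * D : ℕ) : ℝ) := by
    have h2 : B + 2 * 20 ^ d * L * D ≤ 2 * 20 ^ d * (B + L * D) := by
      have h3 : B ≤ 2 * 20 ^ d * B := Nat.le_mul_of_pos_left B (by positivity)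
      calc B + 2 * 20 ^ d * L * D ≤ 2 * 20 ^ d * B + 2 * 20 ^ d * L * D := by omega
        _ = 2 * 20 ^ d * (B + L * D) := by ring
    exact_mod_cast h2
  calc ((B + 2 * 20 ^ d * L * D : ℕ) : ℝ) ^ 3
      ≤ (2 * 20 ^ d * ((B + L * D : ℕ) : ℝ)) ^ 3 := pow_le_pow_left₀ (Nat.cast_nonneg _) h1 3
    _ = 8 * (20 ^ d) ^ 3 * ((B + L * D : ℕ) : ℝ) ^ 3 := by ring
    _ ≤ (3 * 100 ^ d) ^ 2 * ((B + L * D : ℕ) : ℝ) ^ 3 := by
        refine mul_le_mul_of_nonneg_right ?_ (by positivity)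
        have h4 : ((20 : ℝ) ^ d) ^ 3 ≤ (100 ^ d) ^ 2 := by
          rw [← pow_mul, ← pow_mul, mul_comm d 3, mul_comm d 2, pow_mul, pow_mul]
          exact pow_le_pow_left₀ (by norm_num) (by norm_num) d
        have h5 : (0 : ℝ) ≤ (100 ^ d) ^ 2 := by positivity
        nlinarith

section
variable {n : ℕ}

/-- The capacity of a voter, averaged over the macroscopic parts. -/
theorem cap_price4 (hn : 2048 ≤ n) [NeZero (n ^ 3)] (d s : ℕ) (hd : 1 ≤ d)
    (hs : (s + 6) * d ^ 2 ≤ 270) (H : Inst n → ℝ) (κ : ℝ) (hκ : Price4 d s H κ) :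
    ∑ μ : Key (n / 9) → Fin (10 * n ^ 299),
      cap (GM (mkM (m := n / 9) (q := n ^ 3) n (n ^ 299) μ) H) ≤
      (10 * (n ^ 299 : ℕ) : ℝ) ^ Fintype.card (Key (n / 9)) *
        (2 ^ 13 * 100 ^ d * (n / 9 : ℕ) * κ) := by
  have hv := val_room n hn
  have hval : ∀ (μ : Key (n / 9) → Fin (10 * n ^ 299)) (X Y Z : Cfg (n / 9) (n ^ 3)),
      (mkM n (n ^ 299) μ X Y Z).Valid := fun μ X Y Z => mkM_valid hv μ X Y Z
  have hcard : (Fintype.card (Key (n / 9) → Fin (10 * n ^ 299)) : ℝ) =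
      (10 * (n ^ 299 : ℕ) : ℝ) ^ Fintype.card (Key (n / 9)) := by
    rw [Fintype.card_fun, Fintype.card_fin, Nat.cast_pow, Nat.cast_mul]
    norm_num
  have h9 : 9 * (n / 9) ≤ n := Nat.mul_div_le n 9
  have hm0 : (0 : ℝ) ≤ ((n / 9 : ℕ) : ℝ) := Nat.cast_nonneg _
  have hT0 : (0 : ℝ) ≤ (Fintype.card (Key (n / 9) → Fin (10 * n ^ 299)) : ℝ) :=
    Nat.cast_nonneg _
  have h100 : (100 : ℝ) ≤ 100 ^ d := le_self_pow₀ (by norm_num) (by omega)
  have h10 : (10 : ℝ) ^ d ≤ 100 ^ d := pow_le_pow_left₀ (by norm_num) (by norm_num) d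
  have hP : 0 < n ^ 299 := Nat.pow_pos (by omega)
  have hq : 11 * n ^ 3 ≤ n ^ 299 := by
    have h2 : 11 * n ^ 3 ≤ n * n ^ 3 := Nat.mul_le_mul_right _ (by omega)
    have h3 : n * n ^ 3 = n ^ 4 := by rw [← pow_succ']
    have h4 : n ^ 4 ≤ n ^ 299 := Nat.pow_le_pow_right (by omega) (by norm_num)
    omega
  have hKpos := K_pos n d s hn hd hs
  have hKP : n ^ 299 / Rz n s ≤ n ^ 299 := Nat.div_le_self _ _
  have hΛ : (2 : ℝ) ≤ 8 * ((Fintype.card (Key (n / 9)) + 1 : ℕ) : ℝ) ^ d := by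
    have : (1 : ℝ) ≤ ((Fintype.card (Key (n / 9)) + 1 : ℕ) : ℝ) ^ d := by
      refine one_le_pow₀ ?_
      push_cast
      linarith [Nat.cast_nonneg (α := ℝ) (Fintype.card (Key (n / 9)))]
    linarith
  have hT2 : ((2 ^ (s * (Nat.log 2 n + 1)) : ℕ) : ℝ) ≤ 2 ^ (s * (Nat.log 2 n + 1)) := by
    push_cast
    exact le_rfl
  have hexc := small_exc4 n d s ((2 ^ (s * (Nat.log 2 n + 1)) : ℕ) : ℝ) hn hs
    (Nat.cast_nonneg _) hT2
  obtain ⟨x, hx⟩ : ∃ x : ℝ, x = ((2 ^ (s * (Nat.log 2 n + 1)) : ℕ) : ℝ) *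
      (zetd d ^ (2 * 20 ^ d * ((s + 3) * (Nat.log 2 n + 1))) * 2 +
        d * d * ((n ^ 299 / Rz n s : ℕ) : ℝ) / (10 * ((n ^ 299 : ℕ) : ℝ)) * 10 ^ d) := ⟨_, rfl⟩
  rw [← hx] at hexc
  have hexc' : 32 * ((n / 9 : ℕ) : ℝ) ^ 4 * x ≤ ((n / 9 : ℕ) : ℝ) * (1280 * 100 ^ d) := by
    calc 32 * ((n / 9 : ℕ) : ℝ) ^ 4 * x =
          ((n / 9 : ℕ) : ℝ) * (32 * ((n / 9 : ℕ) : ℝ) ^ 3 * x) := by ring
      _ ≤ ((n / 9 : ℕ) : ℝ) * (1 + 10 ^ d) := mul_le_mul_of_nonneg_left hexc hm0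
      _ ≤ ((n / 9 : ℕ) : ℝ) * (1280 * 100 ^ d) :=
          mul_le_mul_of_nonneg_left (by linarith) hm0
  rw [← hcard]
  rcases hκ with ⟨rfl, hF⟩ | ⟨B, D, hBD, hR, rfl⟩ | ⟨B, D, hBD, hR, rfl⟩ | ⟨k, W, hk, hW, hJ, rfl⟩
  · have h1 : ∀ μ : Key (n / 9) → Fin (10 * n ^ 299),
        cap (GM (mkM (m := n / 9) (q := n ^ 3) n (n ^ 299) μ) H) = 0 := fun μ =>
      const_capH _ _ (hval μ) H hF
    simp only [h1, Finset.sum_const_zero, mul_zero, le_refl]
  · have h1 := batch_cap (m := n / 9) (q := n ^ 3) h9 hP hq hΛ (num_om n d s hn hd hs)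
      (ε := d * d * ((n ^ 299 / Rz n s : ℕ) : ℝ) / (10 * ((n ^ 299 : ℕ) : ℝ))) (by positivity)
      (fun X Y Z => antiS hq hKpos hKP le_rfl X Y Z) hval H B D _
      (2 * 20 ^ d * ((s + 3) * (Nat.log 2 n + 1))) hBD hR
    rw [← hx] at h1
    refine h1.trans (mul_le_mul_of_nonneg_left ?_ hT0)
    rw [sqrt_cube _ (Nat.cast_nonneg _)]
    have h3 : (1 : ℝ) ≤ ((B + D : ℕ) : ℝ) ^ (3 / 2 : ℝ) :=
      Real.one_le_rpow (by exact_mod_cast hBD) (by norm_num)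
    set κ := ((B + D : ℕ) : ℝ) ^ (3 / 2 : ℝ) with hκ
    set m : ℝ := ((n / 9 : ℕ) : ℝ) with hm
    have h6 : m * (1280 * 100 ^ d) * 1 ≤ m * (1280 * 100 ^ d) * κ :=
      mul_le_mul_of_nonneg_left h3 (by positivity)
    calc 192 * m * (4 * (9 * 100 ^ d) * κ) + 32 * m ^ 4 * x
        ≤ 192 * m * (4 * (9 * 100 ^ d) * κ) + m * (1280 * 100 ^ d) * κ := by linarith
      _ = 2 ^ 13 * 100 ^ d * m * κ := by ring
  · have h1 := pool_cap (m := n / 9) (q := n ^ 3) h9 hP hq hΛ (num_om n d s hn hd hs)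
      (ε := d * d * ((n ^ 299 / Rz n s : ℕ) : ℝ) / (10 * ((n ^ 299 : ℕ) : ℝ))) (by positivity)
      (fun X Y Z => antiS hq hKpos hKP le_rfl X Y Z) hval H B D _
      (2 * 20 ^ d * ((s + 3) * (Nat.log 2 n + 1))) hR
    rw [← hx] at h1
    refine h1.trans (mul_le_mul_of_nonneg_left ?_ hT0)
    have h2 := sqrt_pool d ((s + 3) * (Nat.log 2 n + 1)) B D
    have h3 : (1 : ℝ) ≤ ((B + (s + 3) * (Nat.log 2 n + 1) * D : ℕ) : ℝ) ^ (3 / 2 : ℝ) := by
      refine Real.one_le_rpow ?_ (by norm_num)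
      have := hBD.trans (one_le_pool (s := s) (L := Nat.log 2 n + 1) (D := D) (by omega))
      exact_mod_cast this
    set κ := ((B + (s + 3) * (Nat.log 2 n + 1) * D : ℕ) : ℝ) ^ (3 / 2 : ℝ) with hκ
    set m : ℝ := ((n / 9 : ℕ) : ℝ) with hm
    have h6 : m * (1280 * 100 ^ d) * 1 ≤ m * (1280 * 100 ^ d) * κ :=
      mul_le_mul_of_nonneg_left h3 (by positivity)
    have h7 : 192 * m * √(((B + 2 * 20 ^ d * ((s + 3) * (Nat.log 2 n + 1)) * D : ℕ) : ℝ) ^ 3) ≤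
        192 * m * (3 * 100 ^ d * κ) := mul_le_mul_of_nonneg_left h2 (by positivity)
    have h8 : 0 ≤ 100 ^ d * m * κ := by positivity
    calc 192 * m * √(((B + 2 * 20 ^ d * ((s + 3) * (Nat.log 2 n + 1)) * D : ℕ) : ℝ) ^ 3) +
          32 * m ^ 4 * x
        ≤ 192 * m * (3 * 100 ^ d * κ) + m * (1280 * 100 ^ d) * κ := by linarith
      _ = 1856 * (100 ^ d * m * κ) := by ring
      _ ≤ 8192 * (100 ^ d * m * κ) := by linarith
      _ = 2 ^ 13 * 100 ^ d * m * κ := by ring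
  · have h1 : ∀ μ : Key (n / 9) → Fin (10 * n ^ 299),
        cap (GM (mkM (m := n / 9) (q := n ^ 3) n (n ^ 299) μ) H) ≤
          80 * ((n / 9 : ℕ) : ℝ) * (Real.sqrt k * W) := fun μ =>
      junta_capH _ _ (hval μ) H k W hJ
    refine (Finset.sum_le_sum fun μ _ => h1 μ).trans ?_
    rw [Finset.sum_const, Finset.card_univ, nsmul_eq_mul]
    refine mul_le_mul_of_nonneg_left ?_ hT0
    have h2 : 0 ≤ ((n / 9 : ℕ) : ℝ) * (Real.sqrt k * W) := by positivity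
    have h3 : (80 : ℝ) ≤ 2 ^ 13 * 100 ^ d := by linarith
    calc 80 * ((n / 9 : ℕ) : ℝ) * (Real.sqrt k * W)
        = 80 * (((n / 9 : ℕ) : ℝ) * (Real.sqrt k * W)) := by ring
      _ ≤ (2 ^ 13 * 100 ^ d) * (((n / 9 : ℕ) : ℝ) * (Real.sqrt k * W)) :=
          mul_le_mul_of_nonneg_right h3 h2
      _ = _ := by ring

end

/-- The lower bound. -/
theorem lower4 (n d s : ℕ) (hn : 3 ≤ n) (hd : 1 ≤ d) (hs : (s + 6) * d ^ 2 ≤ 270)
    (Ω ι : Type) [Fintype Ω] [Nonempty Ω] [Fintype ι]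
    (H : Ω → ι → Inst n → ℝ) (κ : Ω → ι → ℝ) (hκ : ∀ ω r, Price4 d s (H ω r) (κ ω r))
    (hdec : ∀ I : Inst n, I.Valid → Tripartite I → Decides H I) :
    (n : ℝ) ^ 3 ≤ 2 ^ 32 * 100 ^ d * ((∑ ω, ∑ r, κ ω r) / Fintype.card Ω) := by
  classical
  have hΩ : (0 : ℝ) < Fintype.card Ω := by exact_mod_cast Fintype.card_pos
  by_cases hm : n < 2048
  · set A := (univ.filter fun ω : Ω => (0 < ∑ s, H ω s (constInst n 0) ↔ (constInst n 0).Yes))
      with hA
    set B := (univ.filter fun ω : Ω => (0 < ∑ s, H ω s (constInst n 1) ↔ (constInst n 1).Yes))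
      with hB
    have h1 : 19 * Fintype.card Ω ≤ 20 * A.card := by
      have := hdec _ (constInst_valid n (by omega) 0 (by simp)) (constInst_tripartite n 0)
      unfold Decides at this
      rw [hA]
      convert this
    have h2 : 19 * Fintype.card Ω ≤ 20 * B.card := by
      have := hdec _ (constInst_valid n (by omega) 1 (by simp)) (constInst_tripartite n 1)
      unfold Decides at this
      rw [hB]
      convert this
    have h3 : (A ∪ B).card + (A ∩ B).card = A.card + B.card := Finset.card_union_add_card_inter A B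
    have h4 : (A ∪ B).card ≤ Fintype.card Ω := Finset.card_le_univ _
    have h5 : 9 * Fintype.card Ω ≤ 10 * (A ∩ B).card := by omega
    have h6 : ((A ∩ B).card : ℝ) ≤ ∑ ω, ∑ s, κ ω s := by
      calc ((A ∩ B).card : ℝ) = ∑ ω ∈ A ∩ B, (1 : ℝ) := by simp
        _ ≤ ∑ ω ∈ A ∩ B, ∑ s, κ ω s := by
            refine Finset.sum_le_sum fun ω hω => ?_
            rw [mem_inter, hA, hB, mem_filter, mem_filter] at hω
            have g1 : 0 < ∑ s, H ω s (constInst n 0) := hω.1.2.2 (constInst_yes n hn)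
            have g2 : ¬ 0 < ∑ s, H ω s (constInst n 1) := fun h => constInst_no n (hω.2.2.1 h)
            have g3 : ∃ s, H ω s (constInst n 0) ≠ H ω s (constInst n 1) := by
              by_contra hcon
              push Not at hcon
              apply g2
              rw [← Finset.sum_congr rfl fun s _ => hcon s]
              exact g1
            obtain ⟨r, hr⟩ := g3
            refine (one_le_price4 (H ω r) (κ ω r) (hκ ω r) _ _ (constInst_valid n (by omega) 0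
              (by simp)) (constInst_valid n (by omega) 1 (by simp)) rfl hr).trans ?_
            exact Finset.single_le_sum (f := fun s => κ ω s)
              (fun s _ => price4_nonneg _ _ (hκ ω s)) (Finset.mem_univ r)
        _ ≤ ∑ ω, ∑ s, κ ω s := Finset.sum_le_sum_of_subset_of_nonneg (Finset.subset_univ _)
            fun ω _ _ => Finset.sum_nonneg fun s _ => price4_nonneg _ _ (hκ ω s)
    have h5' : (9 : ℝ) * Fintype.card Ω ≤ 10 * (A ∩ B).card := by exact_mod_cast h5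
    have h7 : (9 / 10 : ℝ) ≤ (∑ ω, ∑ s, κ ω s) / Fintype.card Ω := by
      rw [le_div_iff₀ hΩ]
      linarith
    have h8 : n ≤ 2048 := by omega
    have h9 : (n : ℝ) ≤ 2048 := by exact_mod_cast h8
    have h10 : (n : ℝ) ^ 3 ≤ 2048 ^ 3 := pow_le_pow_left₀ (Nat.cast_nonneg n) h9 3
    have h100 : (100 : ℝ) ≤ 100 ^ d := le_self_pow₀ (by norm_num) (by omega)
    calc (n : ℝ) ^ 3 ≤ 2048 ^ 3 := h10
      _ ≤ 2 ^ 32 * 100 * (9 / 10) := by norm_num
      _ ≤ 2 ^ 32 * 100 ^ d * ((∑ ω, ∑ s, κ ω s) / Fintype.card Ω) :=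
          mul_le_mul (mul_le_mul_of_nonneg_left h100 (by norm_num)) h7 (by norm_num)
            (by positivity)
  · push Not at hm
    have hq0 : (n ^ 3 : ℕ) ≠ 0 := pow_ne_zero _ (by omega)
    have : NeZero (n ^ 3) := ⟨hq0⟩
    have h9 : 9 * (n / 9) ≤ n := Nat.mul_div_le n 9
    have hv := val_room n hm
    have h := final2 (show 18 ≤ n by omega) (2 ^ 13 * 100 ^ d) (n ^ 3) (n ^ 299)
      (Nat.pow_pos (by omega))
      (fun μ X Y Z => mkM_valid hv μ X Y Z) (fun μ X Y Z h => zero_of_yesM μ X Y Z h)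
      (fun μ X Y Z i j k g0 g1 g2 hz => yesM h9 μ X Y Z i j k g0 g1 g2 hz) le_rfl H κ hdec
      (fun ω σ => cap_price4 hm d s hd hs (H ω σ) (κ ω σ) (hκ ω σ))
    refine h.trans (le_of_eq ?_)
    ring

end Pool.Agent.Helper21.UV4
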